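import Mathlib
import Pool.Agent.R463.EX6

set_option autoImplicit false

/-!
# The local law of the integers without small prime factors

For the integers without prime factors `p ≤ y`, the exact number of occurrences of every block of consecutive
elements, of length up to a constant times the average spacing, in every interval longer than a fixed power
of `y`.
-/

namespace Pool.Agent.Results.MP_028722_nt.ExactBlocks

open Finset Pool.Agent.H373R2.T7 Pool.Agent.W123.RP Pool.Agent.W123.RU Pool.Agent.TH464.PO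
open Pool.Agent.R463.EX

/-- `n` has no prime factor `p ≤ y` -/
def Rough (y n : ℕ) : Prop := ∀ p : ℕ, p.Prime → p ≤ y → ¬ p ∣ n

/-- The product over the primes `p ≤ y` of `1 - ν / p`, where `ν` is the number of the residue classes
modulo `p` which contain an element of `H`. -/
noncomputable def density (H : Finset ℕ) (y : ℕ) : ℝ :=
  ∏ p ∈ (Icc 1 y).filter Nat.Prime, (1 - ((H.image (· % p)).card : ℝ) / p)

/-- The number of the integers `n` in `(z, z + Y]` for which the elements of `Rough y` in `[n, n + L]` are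
exactly the integers `n + h` with `h ∈ H`. -/
noncomputable def blocks (H : Finset ℕ) (L y z Y : ℕ) : ℕ :=
  Set.ncard {n : ℕ | z < n ∧ n ≤ z + Y ∧ ∀ h ≤ L, (Rough y (n + h) ↔ h ∈ H)}

lemma rough_iff (y n : ℕ) : Sf Qi y n ↔ Rough y n := by
  constructor
  · intro h p hp hpy hd
    exact h p (mem_pz.2 ⟨hpy, hp⟩) hd
  · intro h p hp hd
    obtain ⟨h1, h2⟩ := mem_pz.1 hp
    exact h p h2 h1 hd

lemma density_eq (H : Finset ℕ) (y : ℕ) : Vq (QH Qi H) y = density H y := by
  unfold Vq density pz
  apply Finset.prod_congr rfl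
  intro p hp
  rw [nuB_QH_Qi H p (mem_filter.1 hp).2]

lemma density_zero (y : ℕ) : Vq Qi y = density {0} y := by
  unfold Vq density pz
  apply Finset.prod_congr rfl
  intro p hp
  rw [nuB_Qi p (mem_filter.1 hp).2, image_singleton, card_singleton]

lemma blocks_eq (H : Finset ℕ) (L y z Y : ℕ) : exN Qi H L y z Y = blocks H L y z Y := by
  classical
  unfold exN blocks
  rw [← Set.ncard_coe_finset]
  congr 1
  ext n
  simp only [coe_filter, mem_Icc, Set.mem_ofPred_eq, rough_iff]
  constructor
  · rintro ⟨⟨h1, h2⟩, h3⟩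
    exact ⟨by omega, h2, h3⟩
  · rintro ⟨h1, h2, h3⟩
    exact ⟨⟨by omega, h2⟩, h3⟩

/-- **The local law.** For all `k`, `x₀` and `ε > 0` there are `s` and `y₀` such that for all `y ≥ y₀`, all
intervals `(z, z + Y]` of length `Y ≥ y ^ s`, all sets `H` of at most `k` natural numbers with `0 ∈ H` and all
`L ≥ max H` with `L V ≤ x₀`, `V = ∏_{p ≤ y} (1 - 1 / p)`, the number of the `n` in the interval for which the
integers without prime factors `p ≤ y` in `[n, n + L]` are exactly the `n + h`, `h ∈ H`, is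
`Y ∏_{p ≤ y} (1 - ν_p(H) / p) exp (- L V)`, up to the factor `1 ± ε`. -/
theorem result (k : ℕ) (x₀ ε : ℝ) (hε : 0 < ε) :
    ∃ s y₀ : ℕ, ∀ y : ℕ, y₀ ≤ y → ∀ z Y : ℕ, y ^ s ≤ Y → ∀ H : Finset ℕ, H.card ≤ k → 0 ∈ H →
      ∀ L : ℕ, (∀ h ∈ H, h ≤ L) → L * density {0} y ≤ x₀ →
        |(blocks H L y z Y : ℝ) - Y * density H y * Real.exp (-(L * density {0} y))| ≤
          ε * (Y * density H y * Real.exp (-(L * density {0} y))) := by
  choose s y0 h using fun a : ℕ => patt_rough (a + 1) (by omega) x₀ ε hε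
  refine ⟨∑ a ∈ range k, s a, (∑ a ∈ range k, y0 a) + 1, ?_⟩
  intro y hy z Y hY H hH h0 L hL hx
  have hpos : 0 < H.card := card_pos.2 ⟨0, h0⟩
  obtain ⟨a, ha⟩ : ∃ a, a = H.card - 1 := ⟨_, rfl⟩
  have hak : a ∈ range k := mem_range.2 (by omega)
  have hs : s a ≤ ∑ a ∈ range k, s a := Finset.single_le_sum (fun _ _ => Nat.zero_le _) hak
  have hy0 : y0 a ≤ ∑ a ∈ range k, y0 a := Finset.single_le_sum (fun _ _ => Nat.zero_le _) hak
  have h1 := h a y (by omega) z Y ((Nat.pow_le_pow_right (by omega) hs).trans hY) H (by omega) h0 L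
    (fun x hx => mem_range.2 (Nat.lt_succ_of_le (hL x hx))) (by rw [density_zero]; exact hx)
  rw [blocks_eq, density_eq, density_zero] at h1
  exact h1

end Pool.Agent.Results.MP_028722_nt.ExactBlocks
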