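import Mathlib
import Pool.Agent.R528.RM.Mgf3
import Pool.Agent.R528.RM.HawkinsViol

set_option autoImplicit false

/-!
# The law of the gaps in random models of the primes, up to the exponential threshold

In the first part the integers are decided one after the other, and the only assumption is that the
conditional probability of choosing `n + 1`, given the decisions up to `n`, is `(1 + o(1)) / log n`
almost surely; no independence is assumed.  The second part is the case of the Hawkins random sieve.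
Let `p(0) < p(1) < ...` be the chosen integers.

Almost surely, for ALL continuous functions `f` on `[0, ∞)` with `f(t) = O(exp (s t))` for some
`s < 1`, the average of `f ((p(i+1) - p(i)) / log p(i))` over the gaps up to `x` tends to
`∫ f(t) exp(-t) dt`.  In particular the average of `exp (s (p(i+1) - p(i)) / log p(i))` tends to
`1 / (1 - s)` for every real `s < 1`, and for `s ≥ 1` it tends to infinity.

Each single gap up to `x` therefore satisfies `exp (s d / log p) ≤ (1/(1-s) + o(1)) x / log x` for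
every `s < 1`, which contains the bound `d ≤ (1 + o(1)) log² p` of Cramér's conjecture.
-/

open MeasureTheory ProbabilityTheory Filter
open scoped Topology

namespace Pool.Agent.Results.MP_028722_nt.ExponentialMomentsOfGaps

/-- the conditional probability that `n + 1` is chosen, given the information up to `n` -/
noncomputable def density {Ω : Type} {mΩ : MeasurableSpace Ω} (μ : Measure Ω) (ℱ : Filtration ℕ mΩ)
    (A : ℕ → Set Ω) (n : ℕ) : Ω → ℝ := μ[(A (n + 1)).indicator (fun _ => (1 : ℝ)) | ℱ n]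

/-- the member number `i` of `S` in increasing order (the least member has number `0`) -/
noncomputable def member (S : Set ℕ) (i : ℕ) : ℕ := Nat.nth (· ∈ S) i

/-- the sum of `f ((p(i+1) - p(i)) / log p(i))` over the gaps with `p(i+1) ≤ x` -/
noncomputable def gapSum (S : Set ℕ) (f : ℝ → ℝ) (x : ℕ) : ℝ :=
  ∑ i ∈ (Finset.range x).filter (fun i => member S (i + 1) ≤ x),
    f (((member S (i + 1) : ℝ) - member S i) / Real.log (member S i))

/-- the number of members up to `x` -/
noncomputable def count (S : Set ℕ) (x : ℕ) : ℕ := {n | n ≤ x ∧ n ∈ S}.ncard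

/-- the conclusion: the law of the gaps of `S` -/
def GapLaw (S : Set ℕ) : Prop :=
  (∀ f : ℝ → ℝ, ContinuousOn f (Set.Ici 0) → ∀ s C : ℝ, s < 1 → (∀ t, 0 ≤ t → |f t| ≤ C * Real.exp (s * t)) →
    Tendsto (fun x : ℕ => gapSum S f x / count S x) atTop (𝓝 (∫ t in Set.Ioi 0, f t * Real.exp (-t)))) ∧
  (∀ s : ℝ, s < 1 → Tendsto (fun x : ℕ => gapSum S (fun t => Real.exp (s * t)) x / count S x) atTop (𝓝 (1 / (1 - s)))) ∧
  (∀ s : ℝ, 1 ≤ s → Tendsto (fun x : ℕ => gapSum S (fun t => Real.exp (s * t)) x / count S x) atTop atTop)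

/-- `n` is kept by the sieve in which `r j n` means that `j`, if it is kept itself, strikes out the
larger number `n`: the number `n` is at least `2` and no smaller kept number strikes it out -/
def Kept (r : ℕ → ℕ → Prop) (n : ℕ) : Prop :=
  2 ≤ n ∧ ∀ j : Fin n, Kept r j → ¬ r j n
termination_by n
decreasing_by exact j.2

/-- the Hawkins primes of the outcome `ω`, where `R j n` is the event that `j` strikes out `n` -/
def hawkins {Ω : Type} (R : ℕ → ℕ → Set Ω) (ω : Ω) : Set ℕ := {n | Kept (fun j n => ω ∈ R j n) n}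

lemma kept_eq (r : ℕ → ℕ → Prop) (n : ℕ) : Kept r n ↔ Pool.Agent.R528.RM.Survives r n := by
  induction n using Nat.strong_induction_on with
  | _ n ih =>
    rw [Kept, Pool.Agent.R528.RM.Survives]
    constructor
    · rintro ⟨h1, h2⟩
      exact ⟨h1, fun j hj => h2 j ((ih j j.2).2 hj)⟩
    · rintro ⟨h1, h2⟩
      exact ⟨h1, fun j hj => h2 j ((ih j j.2).1 hj)⟩

lemma hawkins_eq {Ω : Type} (R : ℕ → ℕ → Set Ω) (ω : Ω) :
    hawkins R ω = Pool.Agent.R528.RM.rset (Pool.Agent.R528.RM.surv R) ω := by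
  ext n
  exact kept_eq _ n

/-- the general law -/
lemma law {Ω : Type} [mΩ : MeasurableSpace Ω] (μ : Measure Ω) [IsProbabilityMeasure μ]
    (ℱ : Filtration ℕ mΩ) (A : ℕ → Set Ω) (hA : ∀ n, MeasurableSet[ℱ n] (A n))
    (hd : ∀ᵐ ω ∂μ, Tendsto (fun n : ℕ => density μ ℱ A n ω * Real.log n) atTop (𝓝 1)) :
    ∀ᵐ ω ∂μ, GapLaw {n | ω ∈ A n} := by
  classical
  filter_upwards [Pool.Agent.R528.RM.gap_law hA hd] with ω hω
  obtain ⟨h1, h2, h3⟩ := hω
  set S : Set ℕ := {n | ω ∈ A n} with hS
  have hSi : S.Infinite := h1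
  have ht0 : ∀ N : ℕ, 0 ≤ Real.log (N : ℝ) / N := fun N => div_nonneg (Real.log_natCast_nonneg N) (Nat.cast_nonneg N)
  have htlim : Tendsto (fun N : ℕ => Real.log (N : ℝ) / N) atTop (𝓝 0) := by
    have h6 : Tendsto (fun x : ℝ => Real.log x / x) atTop (𝓝 0) := by
      have := (isLittleO_log_rpow_atTop (zero_lt_one)).tendsto_div_nhds_zero
      simpa using this
    exact h6.comp (tendsto_natCast_atTop_atTop (R := ℝ))
  -- the counting function
  have hcount : Tendsto (fun N : ℕ => (count S N : ℝ) * (Real.log N / N)) atTop (𝓝 1) := by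
    have h4 : ∀ N : ℕ, (count S N : ℝ) = (∑ n ∈ Finset.range N, (A (n + 1)).indicator (fun _ => (1 : ℝ)) ω) + if 0 ∈ S then 1 else 0 := by
      intro N
      have h5 : ∀ n, (A (n + 1)).indicator (fun _ => (1 : ℝ)) ω = if n + 1 ∈ S then 1 else 0 := fun n => by
        rw [Set.indicator_apply]
        rfl
      simp_rw [h5]
      have h6 : count S N = ((Finset.range (N + 1)).filter (· ∈ S)).card := by
        unfold count
        rw [← Set.ncard_coe_finset]
        congr 1
        ext n
        simp only [Finset.coe_filter, Finset.mem_range, Set.mem_ofPred_eq]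
        constructor
        · rintro ⟨a, b⟩; exact ⟨by omega, b⟩
        · rintro ⟨a, b⟩; exact ⟨by omega, b⟩
      have h7 : (((Finset.range (N + 1)).filter (· ∈ S)).card : ℝ) = ∑ n ∈ Finset.range (N + 1), if n ∈ S then (1 : ℝ) else 0 := by
        rw [Finset.sum_boole]
      rw [h6, h7, Finset.sum_range_succ']
    have h5 := h2.add (htlim.const_mul (if 0 ∈ S then (1 : ℝ) else 0))
    rw [mul_zero, add_zero] at h5
    refine h5.congr fun N => ?_
    rw [h4]
    ring
  -- division
  have hdiv : ∀ (f : ℝ → ℝ) (L : ℝ), Tendsto (fun N => Pool.Agent.R528.RM.As S N f * (Real.log N / N)) atTop (𝓝 L) →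
      Tendsto (fun x : ℕ => gapSum S f x / count S x) atTop (𝓝 L) := by
    intro f L hL
    have h4 := hL.div hcount one_ne_zero
    rw [div_one] at h4
    refine h4.congr' ?_
    filter_upwards [eventually_gt_atTop 1] with N hN
    have hl : 0 < Real.log (N : ℝ) := Real.log_pos (by exact_mod_cast hN)
    have hN0 : (0 : ℝ) < N := by exact_mod_cast (by omega : 0 < N)
    exact mul_div_mul_right _ _ (by positivity)
  have htest : ∀ f : ℝ → ℝ, ContinuousOn f (Set.Ici 0) → ∀ s C : ℝ, s < 1 → (∀ t, 0 ≤ t → |f t| ≤ C * Real.exp (s * t)) →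
      Tendsto (fun x : ℕ => gapSum S f x / count S x) atTop (𝓝 (∫ t in Set.Ioi 0, f t * Real.exp (-t))) := fun f hf s C hs hC =>
    hdiv f _ (Pool.Agent.R528.RM.test_fun hSi ht0 h3 hf hs hC)
  have hexp : ∀ s : ℝ, s < 1 → Tendsto (fun x : ℕ => gapSum S (fun t => Real.exp (s * t)) x / count S x) atTop (𝓝 (1 / (1 - s))) := by
    intro s hs
    have h4 := htest (fun t => Real.exp (s * t)) (by fun_prop) s 1 hs (fun t _ => by
      rw [abs_of_pos (Real.exp_pos _), one_mul])
    have e : (fun x : ℝ => Real.exp (s * x) * Real.exp (-x)) = fun x => Real.exp ((s - 1) * x) := by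
      funext x
      rw [← Real.exp_add]
      congr 1
      ring
    rw [e, integral_exp_mul_Ioi (by linarith) 0, mul_zero, Real.exp_zero] at h4
    have h5 : -1 / (s - 1) = 1 / (1 - s) := by
      have : s - 1 ≠ 0 := by linarith
      have : 1 - s ≠ 0 := by linarith
      field_simp
      ring
    rwa [h5] at h4
  refine ⟨htest, hexp, ?_⟩
  intro s hs
  rw [tendsto_atTop]
  intro B
  -- `q < 1` with `1 / (1 - q) > B`
  set q : ℝ := 1 - 1 / (|B| + 2) with hq
  have hB : 0 < |B| + 2 := by positivity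
  have hq1 : q < 1 := by
    have : 0 < 1 / (|B| + 2) := by positivity
    rw [hq]; linarith
  have hval : 1 / (1 - q) = |B| + 2 := by
    rw [hq]
    field_simp
    ring
  have hlim := hexp q hq1
  rw [hval] at hlim
  filter_upwards [hlim.eventually (lt_mem_nhds (show B < |B| + 2 by linarith [le_abs_self B]))] with x hx
  refine hx.le.trans ?_
  apply div_le_div_of_nonneg_right _ (Nat.cast_nonneg _)
  unfold gapSum
  refine Finset.sum_le_sum fun i _ => Real.exp_le_exp.2 ?_
  exact mul_le_mul_of_nonneg_right (by linarith) (Pool.Agent.R528.RM.tg_nonneg hSi i)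

end Pool.Agent.Results.MP_028722_nt.ExponentialMomentsOfGaps

open Pool.Agent.Results.MP_028722_nt.ExponentialMomentsOfGaps

theorem Pool.Agent.Results.MP_028722_nt.ExponentialMomentsOfGaps.result :
    (∀ {Ω : Type} [mΩ : MeasurableSpace Ω] (μ : Measure Ω) [IsProbabilityMeasure μ]
      (ℱ : Filtration ℕ mΩ) (A : ℕ → Set Ω), (∀ n, MeasurableSet[ℱ n] (A n)) →
      (∀ᵐ ω ∂μ, Tendsto (fun n : ℕ => density μ ℱ A n ω * Real.log n) atTop (𝓝 1)) →
      ∀ᵐ ω ∂μ, GapLaw {n | ω ∈ A n}) ∧
    (∀ {Ω : Type} [MeasurableSpace Ω] (μ : Measure Ω) [IsProbabilityMeasure μ] (R : ℕ → ℕ → Set Ω),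
      (∀ j n, MeasurableSet (R j n)) → iIndepSet (fun x : ℕ × ℕ => R x.1 x.2) μ →
      (∀ j n, 2 ≤ j → j < n → μ.real (R j n) = 1 / j) →
      ∀ᵐ ω ∂μ, GapLaw (hawkins R ω)) := by
  refine ⟨fun μ _ ℱ A hA hd => law μ ℱ A hA hd, ?_⟩
  intro Ω _ μ _ R hR hI hp
  have h1 : ∀ᵐ ω ∂μ, ∀ n, 1 ≤ n → Pool.Agent.R528.RM.Dd R n ω =
      Pool.Agent.R528.RM.dens μ (Pool.Agent.R528.RM.hist hR) (Pool.Agent.R528.RM.surv R) n ω := by
    rw [ae_all_iff]
    intro n
    by_cases hn : 1 ≤ n
    · filter_upwards [Pool.Agent.R528.RM.dens_eq hR hI hp n hn] with ω hω _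
      exact hω
    · exact Eventually.of_forall fun ω h => absurd h hn
  have h2 := law μ (Pool.Agent.R528.RM.hist hR) (Pool.Agent.R528.RM.surv R) (Pool.Agent.R528.RM.surv_meas hR) (by
    filter_upwards [h1, Pool.Agent.R528.RM.Yy_lim hR hI hp] with ω h1 ⟨C, hC⟩
    have hlog : Tendsto (fun n : ℕ => Real.log (n : ℝ)) atTop atTop := Real.tendsto_log_atTop.comp tendsto_natCast_atTop_atTop
    have h3 := (hC.div_atTop hlog).add_const 1
    rw [zero_add] at h3
    have h4 := h3.inv₀ one_ne_zero
    rw [inv_one] at h4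
    refine h4.congr' ?_
    filter_upwards [eventually_ge_atTop 1, hlog.eventually_gt_atTop 0] with n hn hn2
    have h5 := h1 n hn
    have h6 : density μ (Pool.Agent.R528.RM.hist hR) (Pool.Agent.R528.RM.surv R) n ω = Pool.Agent.R528.RM.Dd R n ω := h5.symm
    have h7 : Pool.Agent.R528.RM.Yy R n ω * Pool.Agent.R528.RM.Dd R n ω = 1 := Pool.Agent.R528.RM.Yy_mul_Dd n ω
    have h8 := Pool.Agent.R528.RM.Yy_pos (R := R) n ω
    rw [h6]
    have h9 : Pool.Agent.R528.RM.Dd R n ω = (Pool.Agent.R528.RM.Yy R n ω)⁻¹ := by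
      field_simp
      linarith
    rw [h9]
    field_simp
    rw [sub_add_cancel, div_self h8.ne'])
  filter_upwards [h2] with ω hω
  rw [hawkins_eq]
  exact hω
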