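import Pool.Agent.H361R2.PA.MultA

set_option autoImplicit false

/-!
# Prime-free intervals of record length around multiples of EVERY integer

The theorem is proved in the starting file `Pool/Agent/H361R2/PA/MultA.lean`, which no result uses: the sieve of
Rankin, Erdős, Maier, Pomerance, Pintz, Ford, Green, Konyagin, Maynard and Tao with the record length, in which the
classes modulo the primes dividing the multiplier `α` are not available.
-/

namespace Pool.Agent.Results.MP_028722_nt.MultiplesOfEveryInteger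

/-- The record scale `f(x) = log x (log₂ x)² log₄ x / (log₃ x)²` (iterated natural logarithms). -/
noncomputable def f (x : ℝ) : ℝ :=
  Real.log x * (Real.log (Real.log x)) ^ 2 * Real.log (Real.log (Real.log (Real.log x))) /
    (Real.log (Real.log (Real.log x))) ^ 2

/-- For every `D` there are `c > 0` and `X₀` such that for all `X ≥ X₀`, ALL integers `1 ≤ α ≤ exp ((log X)^(D+1))`
(whatever their prime factors are) and all integers `z` some multiple `α n` of `α`, with
`z + X/4 < n ≤ z + X`, is in the middle of an interval without primes: none of the integers `α n + j`,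
`|j| ≤ c (φ(α)/α) f(X)`, is a prime or minus a prime. -/
theorem result (D : ℕ) : ∃ c : ℝ, 0 < c ∧ ∃ X₀ : ℝ, ∀ X : ℝ, X₀ ≤ X →
    ∀ α : ℕ, 1 ≤ α → (α : ℝ) ≤ Real.exp ((Real.log X) ^ (D + 1)) →
    ∀ z : ℤ, ∃ n : ℤ, (z : ℝ) + X / 4 < n ∧ (n : ℝ) ≤ z + X ∧
      ∀ j : ℤ, |(j : ℝ)| ≤ c * ((Nat.totient α : ℝ) / α * f X) →
        ¬ ((α : ℤ) * n + j).natAbs.Prime := by
  obtain ⟨c, hc, X₀, h⟩ := Pool.Agent.H361R2.PA.multM D
  refine ⟨c, hc, X₀, fun X hX α hα hαX z => ?_⟩
  have hα0 : (0 : ℝ) < α := by exact_mod_cast hα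
  have hlog : Real.log α ≤ (Real.log X) ^ (D + 1) := by
    rw [← Real.log_exp ((Real.log X) ^ (D + 1))]
    exact Real.log_le_log hα0 hαX
  obtain ⟨n, h1, h2, h3⟩ := h X hX α hα hlog z
  refine ⟨n, h1, h2, fun j hj hp => ?_⟩
  have hF : Pool.Agent.H361R2.PA.FF 1 X = f X := by
    unfold Pool.Agent.H361R2.PA.FF f
    rw [pow_one]
  refine h3 j (by rw [hF]; exact hj) ?_
  exact Int.prime_iff_natAbs_prime.2 hp

end Pool.Agent.Results.MP_028722_nt.MultiplesOfEveryInteger
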