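import Mathlib
import Pool.Agent.H622R3.SP.Good
import Pool.Agent.H622R3.SP.Mult

set_option autoImplicit false

/-!
# Regular positions: right order of primes and Cramér's bound, at all scales simultaneously
-/

namespace Pool.Agent.Results.MP_028722_nt.RegularPositions

open Filter MeasureTheory

/-- The number of primes in the open interval `(x - H, x)`. -/
noncomputable def primesBelow (x H : ℝ) : ℕ := {p : ℕ | p.Prime ∧ x - H < p ∧ (p : ℝ) < x}.ncard

/-- `x` is regular: for ALL `H` between `K log x` and `x` the interval `(x - H, x)` contains at least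
`(1 - δ) H / log x` and at most `lam H / log x` primes. -/
def Regular (δ K lam x : ℝ) : Prop := ∀ H : ℝ, K * Real.log x ≤ H → H ≤ x →
  (1 - δ) * H / Real.log x ≤ primesBelow x H ∧ (primesBelow x H : ℝ) ≤ lam * H / Real.log x

/-- All gaps between consecutive primes `p < q < x` have a length of order at most `log x` plus the
distance `x - q` of the gap from `x`. -/
def TameGaps (C x : ℝ) : Prop := ∀ n : ℕ, (Nat.nth Nat.Prime (n + 1) : ℝ) < x →
  (Nat.nth Nat.Prime (n + 1) : ℝ) - Nat.nth Nat.Prime n ≤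
    C * (Real.log x + (x - Nat.nth Nat.Prime (n + 1)))

lemma regular_iff {δ K lam x : ℝ} : Regular δ K lam x ↔ Pool.Agent.H622R3.SP.AS δ K lam x := Iff.rfl

lemma finP (x H : ℝ) : {p : ℕ | p.Prime ∧ x - H < p ∧ (p : ℝ) < x}.Finite :=
  Pool.Agent.H622R3.SP.cb_finite x H

/-- Regular positions see tame gaps. -/
lemma tame_of_regular {δ K lam x : ℝ} (hδ1 : δ < 1) (hK : 0 < K) (hlam : 0 < lam)
    (hx : 3 ≤ x) (hKx : K * Real.log x ≤ x) (h : Regular δ K lam x) :
    TameGaps (K + lam * (K + 1) / (1 - δ)) x := by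
  intro n hn
  have hinf := Nat.infinite_setOf_prime
  set p := Nat.nth Nat.Prime n with hp
  set q := Nat.nth Nat.Prime (n + 1) with hq
  have hpq : p < q := (Nat.nth_lt_nth hinf).2 (Nat.lt_succ_self n)
  have hpP : p.Prime := Nat.nth_mem_of_infinite hinf n
  have hqP : q.Prime := Nat.nth_mem_of_infinite hinf (n + 1)
  have hlog1 : 1 ≤ Real.log x := by
    rw [Real.le_log_iff_exp_le (by linarith)]
    exact (Real.exp_one_lt_d9.le.trans (by norm_num)).trans hx
  have hδ : 0 < 1 - δ := by linarith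
  have hD : 0 < x - q := by linarith
  have hp0 : (2 : ℝ) ≤ p := by exact_mod_cast hpP.two_le
  have hq0 : (2 : ℝ) ≤ q := by exact_mod_cast hqP.two_le
  have hpqR : (p : ℝ) < q := by exact_mod_cast hpq
  have hC0 : 0 ≤ lam * (K + 1) / (1 - δ) := by positivity
  rcases lt_or_ge (x - p) (K * Real.log x) with h1 | h1
  · have : K * Real.log x ≤ K * (Real.log x + (x - q)) := by
      apply mul_le_mul_of_nonneg_left _ hK.le
      linarith
    have h2 : 0 ≤ lam * (K + 1) / (1 - δ) * (Real.log x + (x - q)) := by positivity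
    nlinarith
  · obtain ⟨hlow, -⟩ := h (x - p) h1 (by linarith)
    set H' : ℝ := max (K * Real.log x) (x - q + 1) with hH'
    obtain ⟨-, hup⟩ := h H' (le_max_left _ _) (max_le hKx (by linarith))
    have hsub : primesBelow x (x - p) ≤ primesBelow x H' := by
      unfold primesBelow
      apply Set.ncard_le_ncard _ (finP x H')
      rintro r ⟨hr, hr1, hr2⟩
      refine ⟨hr, ?_, hr2⟩
      have h3 : (p : ℝ) < r := by linarith
      have h4 : p < r := by exact_mod_cast h3
      have h5 : q ≤ r := by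
        by_contra hc
        have hc' : r < Nat.nth Nat.Prime (n + 1) := not_le.1 hc
        have h8 : n < Nat.count Nat.Prime r := by
          have h9 := Nat.nth_count hr
          rw [← (Nat.nth_lt_nth hinf (k := n) (n := Nat.count Nat.Prime r))]
          rw [h9]
          exact h4
        have h10 : Nat.nth Nat.Prime (Nat.count Nat.Prime r) = r := Nat.nth_count hr
        have h11 : Nat.nth Nat.Prime (n + 1) ≤ Nat.nth Nat.Prime (Nat.count Nat.Prime r) :=
          Nat.nth_monotone hinf h8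
        rw [h10] at h11
        exact absurd h11 (not_le.2 hc')
      have h6 : (q : ℝ) ≤ r := by exact_mod_cast h5
      have h7 : x - q + 1 ≤ H' := le_max_right _ _
      linarith
    have h2 : (primesBelow x (x - p) : ℝ) ≤ primesBelow x H' := by exact_mod_cast hsub
    have h3 : (1 - δ) * (x - p) / Real.log x ≤ lam * H' / Real.log x :=
      (hlow.trans h2).trans hup
    have hL0 : 0 < Real.log x := by linarith
    have h4 : (1 - δ) * (x - p) ≤ lam * H' := (div_le_div_iff_of_pos_right hL0).1 h3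
    have h5 : H' ≤ (K + 1) * (Real.log x + (x - q)) := by
      apply max_le
      · nlinarith
      · nlinarith
    have h6 : x - p ≤ lam * (K + 1) / (1 - δ) * (Real.log x + (x - q)) := by
      rw [div_mul_eq_mul_div, le_div_iff₀ hδ]
      calc (x - p) * (1 - δ) = (1 - δ) * (x - p) := by ring
        _ ≤ lam * H' := h4
        _ ≤ lam * ((K + 1) * (Real.log x + (x - q))) := mul_le_mul_of_nonneg_left h5 hlam.le
        _ = lam * (K + 1) * (Real.log x + (x - q)) := by ring
    have h7 : 0 ≤ K * (Real.log x + (x - q)) := by positivity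
    nlinarith

open Classical in
/-- **Regular positions.** (1) For every `0 < δ < 1` a positive proportion of the unit intervals
`(m, m + 1)` consist of regular numbers `x`: for ALL `H` between `K log x` and `x` the number of the
primes in `(x - H, x)` is between `(1 - δ) H / log x` and `lam H / log x`. (2) A positive proportion of
the unit intervals consist of numbers `x` such that every gap between consecutive primes `p < q < x`
satisfies `q - p ≤ C (log x + (x - q))`; in particular Cramér's bound `O (log ^ 2 x)` holds for all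
gaps at a distance at most `log ^ 2 x` from `x`. (3) For all real numbers `x` in `[Y, 2 Y]` outside a
set of measure at most `Y ^ (1 - κ)` a positive proportion of the multiples `k x` with
`k ≤ Y ^ θ` are regular. -/
theorem result :
    (∀ δ : ℝ, 0 < δ → δ < 1 → ∃ K lam : ℝ, 0 < K ∧ 0 < lam ∧
      (∃ c : ℝ, 0 < c ∧ ∀ᶠ N : ℕ in atTop,
        c * N ≤ ({m : ℕ | m < N ∧ ∀ x : ℝ, (m : ℝ) < x → x < m + 1 →
          Regular δ K lam x}.ncard : ℝ)) ∧
      ∀ θ : ℝ, 0 < θ → θ < 1 → ∃ c κ : ℝ, 0 < c ∧ 0 < κ ∧ ∃ Y₀ : ℝ, ∀ Y : ℝ, Y₀ ≤ Y →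
        ∃ E : Set ℝ, MeasurableSet E ∧ volume E ≤ ENNReal.ofReal (Y ^ (1 - κ)) ∧
          ∀ x : ℝ, Y ≤ x → x ≤ 2 * Y → x ∉ E →
            c * Y ^ θ ≤ ({k : ℕ | (k : ℝ) ≤ Y ^ θ ∧ Regular δ K lam (k * x)}.ncard : ℝ)) ∧
    ∃ C c : ℝ, 0 < C ∧ 0 < c ∧ ∀ᶠ N : ℕ in atTop,
      c * N ≤ ({m : ℕ | m < N ∧ ∀ x : ℝ, (m : ℝ) < x → x < m + 1 → TameGaps C x}.ncard : ℝ) := by
  have key : ∀ δ : ℝ, 0 < δ → δ < 1 → ∃ K lam c : ℝ, 0 < K ∧ 0 < lam ∧ 0 < c ∧
      ∀ᶠ N : ℕ in atTop,
        c * N ≤ (((Finset.range N).filter (fun m : ℕ => m ∈ {m : ℕ | ∀ x : ℝ, (m : ℝ) < x →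
          x < m + 1 → Regular δ K lam x})).card : ℝ) :=
    fun δ h0 h1 => Pool.Agent.H622R3.SP.back_all_scales δ h0 h1
  have conv : ∀ (S : Set ℕ) (N : ℕ), ((Finset.range N).filter (fun m : ℕ => m ∈ S)).card =
      {m : ℕ | m < N ∧ m ∈ S}.ncard := by
    intro S N
    rw [← Set.ncard_coe_finset]
    congr 1
    ext m
    simp
  refine ⟨?_, ?_⟩
  · intro δ h0 h1
    obtain ⟨K, lam, c, hK, hlam, hc, hN⟩ := key δ h0 h1
    refine ⟨K, lam, hK, hlam, ⟨c, hc, ?_⟩, ?_⟩
    · exact hN.mono fun N h => by rw [conv] at h; exact h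
    · intro θ hθ0 hθ1
      obtain ⟨c', κ, hc', hκ, Y₀, hY⟩ := Pool.Agent.H622R3.SP.mult
        {m : ℕ | ∀ x : ℝ, (m : ℝ) < x → x < m + 1 → Regular δ K lam x} c hc hN θ hθ0 hθ1
      refine ⟨c', κ, hc', hκ, Y₀, fun Y hYY => ?_⟩
      obtain ⟨E, hE, hvol, hx⟩ := hY Y hYY
      refine ⟨E, hE, hvol, fun x hx1 hx2 hxE => (hx x hx1 hx2 hxE).trans ?_⟩
      apply Nat.cast_le.2
      apply Set.ncard_le_ncard
      · rintro k ⟨hk, m, hm, hm1, hm2⟩
        exact ⟨hk, hm _ hm1 hm2⟩
      · refine (Set.finite_Iic ⌊Y ^ θ⌋₊).subset fun k hk => ?_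
        exact Nat.le_floor hk.1
  · obtain ⟨K, lam, c, hK, hlam, hc, hN⟩ := key (1 / 2) (by norm_num) (by norm_num)
    refine ⟨K + lam * (K + 1) / (1 - 1 / 2), c / 2, by positivity, by positivity, ?_⟩
    have hev : ∀ᶠ x : ℝ in atTop, K * Real.log x ≤ x := by
      have h := Real.isLittleO_log_id_atTop.bound (by positivity : (0 : ℝ) < 1 / K)
      filter_upwards [h, eventually_ge_atTop 1] with x hx hx1
      rw [Real.norm_of_nonneg (Real.log_nonneg hx1), id, Real.norm_of_nonneg (by linarith)] at hx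
      calc K * Real.log x ≤ K * (1 / K * x) := mul_le_mul_of_nonneg_left hx hK.le
        _ = x := by field_simp
    obtain ⟨x₀, hx₀⟩ := hev.exists_forall_of_atTop
    set M : ℕ := ⌈max x₀ 3⌉₊ with hM
    have hMr : max x₀ 3 ≤ (M : ℝ) := Nat.le_ceil _
    have hbig : ∀ᶠ N : ℕ in atTop, (M : ℝ) ≤ c / 2 * N := by
      have : Tendsto (fun N : ℕ => c / 2 * (N : ℝ)) atTop atTop :=
        (tendsto_natCast_atTop_atTop).const_mul_atTop (by positivity)
      exact this.eventually_ge_atTop _
    have hN' : ∀ᶠ N : ℕ in atTop, c * N ≤ ({m : ℕ | m < N ∧ m ∈ {m : ℕ | ∀ x : ℝ, (m : ℝ) < x →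
        x < m + 1 → Regular (1 / 2) K lam x}}.ncard : ℝ) :=
      hN.mono fun N h => by rw [conv] at h; exact h
    filter_upwards [hN', hbig] with N h hb
    set A := {m : ℕ | m < N ∧ m ∈ {m : ℕ | ∀ x : ℝ, (m : ℝ) < x → x < m + 1 →
      Regular (1 / 2) K lam x}} with hA
    set B := {m : ℕ | m < N ∧ ∀ x : ℝ, (m : ℝ) < x → x < m + 1 →
      TameGaps (K + lam * (K + 1) / (1 - 1 / 2)) x} with hB
    have hBfin : B.Finite := (Set.finite_Iio N).subset fun m hm => hm.1
    have hAB : A ⊆ B ∪ Set.Iio M := by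
      rintro m ⟨hm, hmR⟩
      rcases lt_or_ge m M with h1 | h1
      · exact Or.inr h1
      · left
        refine ⟨hm, fun x hx1 hx2 => ?_⟩
        have h2 : (M : ℝ) ≤ m := by exact_mod_cast h1
        have h3 : x₀ ≤ x := by
          have := le_max_left x₀ 3
          linarith
        have h4 : 3 ≤ x := by
          have := le_max_right x₀ 3
          linarith
        exact tame_of_regular (by norm_num) hK hlam h4 (hx₀ x h3) (hmR x hx1 hx2)
    have hcard : A.ncard ≤ B.ncard + M := by
      calc A.ncard ≤ (B ∪ Set.Iio M).ncard :=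
            Set.ncard_le_ncard hAB (hBfin.union (Set.finite_Iio M))
        _ ≤ B.ncard + (Set.Iio M).ncard := Set.ncard_union_le _ _
        _ = B.ncard + M := by
            have e : (Set.Iio M : Set ℕ) = ((Finset.range M : Finset ℕ) : Set ℕ) := by
              ext k; simp
            rw [e, Set.ncard_coe_finset, Finset.card_range]
    have hcard' : (A.ncard : ℝ) ≤ B.ncard + M := by exact_mod_cast hcard
    have h' : c * N ≤ (A.ncard : ℝ) := h
    linarith

end Pool.Agent.Results.MP_028722_nt.RegularPositions
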